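import Pool.Agent.H.MP_d24be6_pr.C

namespace Pool.Agent.Results.MP_d24be6_pr.Upper
open Filter

/-- an r-pattern, given by the set of positions of the letter A in the word of length 2r -/
def IsPattern (r : ℕ) (A : Finset (Fin (2 * r))) : Prop := A.card = r ∧ ∃ z ∈ A, z.val = 0

/-- listing e ∪ f increasingly, e occupies exactly the positions in A and f the others -/
def Forms {m N : ℕ} (A : Finset (Fin m)) (e f : Finset (Fin N)) : Prop :=
  ∃ φ : Fin m → Fin N, StrictMono φ ∧ e = A.image φ ∧ f = Aᶜ.image φ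

/-- every two distinct members of C form a pattern in P -/
def Clique {m N : ℕ} (P : Set (Finset (Fin m))) (C : Finset (Finset (Fin N))) : Prop :=
  ∀ e ∈ C, ∀ f ∈ C, e ≠ f → ∃ A ∈ P, Forms A e f ∨ Forms A f e

/-- collectable: there are arbitrarily large cliques of the single pattern A -/
def Coll {m : ℕ} (A : Finset (Fin m)) : Prop :=
  ∀ k, ∃ (N : ℕ) (C : Finset (Finset (Fin N))), k ≤ C.card ∧ Clique {A} C

/-- the first 2i letters contain i letters A (and i letters B): a block boundary -/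
def Cut {m : ℕ} (A : Finset (Fin m)) (i : ℕ) : Prop := (A.filter (·.val < 2 * i)).card = i

/-- harmonious: distinct, collectable, with the same block boundaries (same composition) -/
def Harm {m : ℕ} (A B : Finset (Fin m)) : Prop :=
  A ≠ B ∧ Coll A ∧ Coll B ∧ ∀ i, Cut A i ↔ Cut B i

/-- ordered r-matchings of size n: partitions of the rn points into r-sets -/
def Mat (r n : ℕ) : Set (Finset (Finset (Fin (r * n)))) :=
  {M | (∀ e ∈ M, e.card = r) ∧ ∀ x, ∃! e, e ∈ M ∧ x ∈ e}

theorem result (r : ℕ) (hr : 1 ≤ r) (P : Set (Finset (Fin (2 * r)))) (hP : ∀ A ∈ P, IsPattern r A)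
    (hH : ∀ A ∈ P, ∀ B ∈ P, ¬ Harm A B) : ∃ c : ℝ, 0 < c ∧ Tendsto (fun n : ℕ =>
      (({M ∈ Mat r n | ∀ C ⊆ M, Clique P C → (C.card : ℝ) ≤ c * (n : ℝ) ^ (1 / r : ℝ)}.ncard : ℝ) /
        (Mat r n).ncard)) atTop (nhds 1) := by
  obtain ⟨s, rfl⟩ := Nat.exists_eq_add_of_le' hr
  obtain ⟨c, c0, h⟩ := Pool.Agent.H.MP_d24be6_pr.main s P hP hH
  have e : ∀ n, Mat (s + 1) n = {M | Pool.Agent.H.MP_d24be6_pr.IsM (s + 1) Finset.univ M} := fun n => by
    ext M
    exact and_congr_right (fun _ => ⟨fun h => ⟨fun x => iff_of_true (Finset.mem_univ x) (h x).exists,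
      fun e a f b x p q => (h x).unique ⟨a, p⟩ ⟨b, q⟩⟩, fun h x =>
        existsUnique_of_exists_of_unique ((h.1 x).1 (Finset.mem_univ x))
          (fun e f a b => h.2 e a.1 f b.1 x a.2 b.2)⟩)
  simp only [e]
  exact ⟨c, c0, h⟩

end Pool.Agent.Results.MP_d24be6_pr.Upper
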